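import Pool.Agent.MP_db5b97_nt.H31.SpecT
import Pool.Agent.MP_db5b97_nt.H95.RES

/-! Small facts on primes, ramification indices and residue degrees. -/

namespace Pool.Agent.MP_db5b97_nt.H17

open H85 H31 NumberField IsDedekindDomain Polynomial H85.ResAux

attribute [local instance] Ideal.Quotient.field

section Base

variable {F : Type} [Field F] [NumberField F]

theorem span_max {q : ℕ} (hq : q.Prime) : (Ideal.span {(q : ℤ)}).IsMaximal :=
  PrincipalIdealRing.isMaximal_of_irreducible (Nat.prime_iff_prime_int.1 hq).irreducible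

theorem lies {q : ℕ} (hq : q.Prime) (w : Sp F) (h : (q : 𝓞 F) ∈ w.asIdeal) :
    w.asIdeal.LiesOver (Ideal.span {(q : ℤ)}) := by
  have := w.isPrime
  refine ⟨(span_max hq).eq_of_le (Ideal.IsPrime.under ℤ w.asIdeal).ne_top ?_⟩
  rw [Ideal.span_singleton_le_iff_mem, Ideal.mem_comap, map_natCast]
  exact h

theorem mem_pow_iff {q : ℕ} (hq : q.Prime) (w : Sp F) (h : (q : 𝓞 F) ∈ w.asIdeal) (n : ℕ) :
    (q : 𝓞 F) ∈ w.asIdeal ^ n ↔ n ≤ w.asIdeal.ramificationIdx ℤ := by
  have := w.isPrime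
  have := lies hq w h
  have e : (Ideal.span {(q : ℤ)}).map (algebraMap ℤ (𝓞 F)) = Ideal.span {(q : 𝓞 F)} := by
    rw [Ideal.map_span, Set.image_singleton, map_natCast]
  have h0 : (Ideal.span {(q : ℤ)}).map (algebraMap ℤ (𝓞 F)) ≠ ⊥ := by
    rw [e]
    simpa using hq.ne_zero
  rw [Ideal.IsDedekindDomain.ramificationIdx_eq_multiplicity _ _ h0,
    ← (FiniteMultiplicity.of_prime_left w.prime h0).pow_dvd_iff_le_multiplicity, e,
    Ideal.dvd_span_singleton]

theorem unq_iff {q : ℕ} (hq : q.Prime) :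
    Unq F q ↔ ∀ w : Pl F q, w.1.asIdeal.ramificationIdx ℤ = 1 := by
  refine forall_congr' fun w => ?_
  have := w.1.isPrime
  have := w.1.asIdeal.ramificationIdx_pos ℤ
  rw [mem_pow_iff hq w.1 w.2]
  omega

variable (F) in
theorem exists_pl {q : ℕ} (hq : q.Prime) : Nonempty (Pl F q) := by
  have := span_max hq
  obtain ⟨Q, h1, h2⟩ := Ideal.exists_maximal_ideal_liesOver_of_isIntegral (S := 𝓞 F)
    (Ideal.span {(q : ℤ)})
  have h3 : (q : 𝓞 F) ∈ Q := by
    have : (q : ℤ) ∈ Q.under ℤ := by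
      rw [← h2.over]
      exact Ideal.mem_span_singleton_self _
    simpa [Ideal.mem_comap] using this
  have h4 : Q ≠ ⊥ := by
    rintro rfl
    exact hq.ne_zero (by simpa using h3)
  exact ⟨⟨⟨Q, h1.isPrime, h4⟩, h3⟩⟩

theorem ef_le {R S : Type} [CommRing R] [IsDomain R] [CommRing S] [Algebra R S] [Module.Finite R S]
    [Module.Flat R S] (p : Ideal R) [p.IsPrime] (P : Ideal S) [P.IsPrime] [P.LiesOver p] :
    P.ramificationIdx R * P.inertiaDeg R ≤ Module.finrank R S := by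
  have : Fintype (p.primesOver S) := (Algebra.QuasiFinite.finite_primesOver p).fintype
  rw [← Ideal.sum_ramification_inertia_eq_finrank p S]
  exact Finset.single_le_sum (f := fun Q : p.primesOver S => Q.1.ramificationIdx R *
    Q.1.inertiaDeg R) (fun _ _ => Nat.zero_le _) (Finset.mem_univ ⟨P, ‹_›, ‹_›⟩)

end Base

section Gal

variable (k : Type) {E : Type} (G : Type) [Field k] [NumberField k] [Field E] [NumberField E]
  [Algebra k E] [Group G] [MulSemiringAction G E] [IsGaloisGroup G k E]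

theorem fexp (n : ℕ) (h : ∀ g : G, g ^ n = 1) (W : Sp E) : W.asIdeal.inertiaDeg (𝓞 k) ∣ n := by
  have : Finite G := IsGaloisGroup.finite G k E
  have := W.isPrime
  obtain ⟨σ, h1⟩ := exists_frobG (𝓞 k) G W.asIdeal
  obtain ⟨ψ, ψ1, ψ2⟩ := exists_frob (𝓞 k ⧸ (und k W).asIdeal) (𝓞 E ⧸ W.asIdeal) n
  rw [Ideal.inertiaDeg_eq_of_isMaximal (und k W).asIdeal W.asIdeal]
  refine ψ2 fun x => ?_
  obtain ⟨x, rfl⟩ := Ideal.Quotient.mk_surjective x
  rw [ψ1, ← map_pow, Ideal.Quotient.eq]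
  exact h1 n (h σ) x

theorem trans (W W' : Sp E) (h : und k W = und k W') : ∃ g : G, g • W = W' := by
  have : Finite G := IsGaloisGroup.finite G k E
  have := W.isPrime
  have := W'.isPrime
  have : W'.asIdeal.LiesOver (und k W).asIdeal := h ▸ inferInstance
  obtain ⟨g, hg⟩ := Ideal.exists_smul_eq_of_isGaloisGroup (und k W).asIdeal W.asIdeal W'.asIdeal G
  exact ⟨g, HeightOneSpectrum.ext hg⟩

theorem card_inertia (W : Sp E) :
    Nat.card (W.asIdeal.inertia G) = W.asIdeal.ramificationIdx (𝓞 k) := by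
  have : Finite G := IsGaloisGroup.finite G k E
  have := W.isPrime
  have := (und k W).isPrime
  rw [Ideal.card_inertia_eq_ramificationIdxIn (und k W).asIdeal,
    Ideal.ramificationIdxIn_eq_ramificationIdx _ W.asIdeal G]

theorem ramq (q : ℕ) (ζ : E) (hq : q.Prime) (hζ : IsPrimitiveRoot ζ q)
    (hG : ∀ g : G, g • ζ = ζ → g = 1) (hU : Unq k q) :
    Nat.card G = q - 1 ∧ ∀ W : Pl E q, W.1.asIdeal.inertiaDeg (𝓞 k) = 1 ∧
      ∀ (g : G) (x : 𝓞 E), g • x - x ∈ W.1.asIdeal := by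
  have : Finite G := IsGaloisGroup.finite G k E
  have h1 : Nat.card G ≤ q - 1 := by
    rw [← Nat.totient_prime hq, ← hζ.card_primitiveRoots, ← Nat.card_eq_finsetCard]
    refine Nat.card_le_card_of_injective (fun g => ⟨g • ζ, (mem_primitiveRoots hq.pos).2
      (hζ.map_of_injective (f := MulSemiringAction.toRingHom G E g)
        (MulAction.injective g))⟩) fun g g' e => ?_
    have e' : g • ζ = g' • ζ := congrArg Subtype.val e
    exact (inv_mul_eq_one.1 (hG (g'⁻¹ * g) (by rw [mul_smul, e', inv_smul_smul]))).symm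
  have h2 : ∀ W : Pl E q, q - 1 ≤ W.1.asIdeal.ramificationIdx (𝓞 k) := fun W => by
    have := W.1.isPrime
    have : NeZero q := ⟨hq.ne_zero⟩
    have hz := hζ.toInteger_isPrimitiveRoot
    generalize hζ.toInteger = z at hz
    have h3 : z - 1 ∈ W.1.asIdeal := by
      obtain ⟨r, hr⟩ := exists_add_pow_prime_eq hq (z - 1) 1
      rw [sub_add_cancel, hz.pow_eq_one, one_pow] at hr
      refine W.1.isPrime.mem_of_pow_mem q ?_
      rw [show (z - 1) ^ q = q * (-((z - 1) * r)) by linear_combination -hr]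
      exact Ideal.mul_mem_right _ _ W.2
    obtain ⟨n, rfl⟩ : ∃ n, q = n + 1 := ⟨q - 1, by have := hq.pos; omega⟩
    have h4 : ((n + 1 : ℕ) : 𝓞 E) ∈ W.1.asIdeal ^ n := by
      have := Ideal.prod_mem_prod (s := Finset.range n) (I := fun _ => W.1.asIdeal)
        (x := fun i => 1 - z ^ (i + 1)) fun i _ => by
          rw [← neg_sub, ← mul_geom_sum]
          exact neg_mem (Ideal.mul_mem_right _ _ h3)
      rwa [Finset.prod_const, Finset.card_range, hz.prod_one_sub_pow_eq_order,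
        ← Nat.cast_succ] at this
    rw [mem_pow_iff hq W.1 W.2, Ideal.ramificationIdx_tower (und k W.1).asIdeal,
      show (und k W.1).asIdeal.ramificationIdx ℤ = 1 from (unq_iff hq).1 hU (W.und k),
      one_mul] at h4
    exact h4
  have h3 : ∀ W : Pl E q,
      W.1.asIdeal.ramificationIdx (𝓞 k) * W.1.asIdeal.inertiaDeg (𝓞 k) ≤ Nat.card G := fun W => by
    have := W.1.isPrime
    have := (und k W.1).isPrime
    rw [IsGaloisGroup.card_eq_finrank G k E, IsFractionRing.finrank_eq (𝓞 k) k (𝓞 E) E]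
    exact ef_le (und k W.1).asIdeal W.1.asIdeal
  have h4 : ∀ W : Pl E q, W.1.asIdeal.inertiaDeg (𝓞 k) = 1 ∧
      W.1.asIdeal.ramificationIdx (𝓞 k) = Nat.card G ∧ Nat.card G = q - 1 := fun W => by
    have := W.1.isPrime
    have a1 := h2 W
    have a2 := h3 W
    have a3 := W.1.asIdeal.inertiaDeg_pos (𝓞 k)
    have a4 := W.1.asIdeal.ramificationIdx_pos (𝓞 k)
    generalize W.1.asIdeal.ramificationIdx (𝓞 k) = e at *
    generalize W.1.asIdeal.inertiaDeg (𝓞 k) = f at *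
    have a5 : f = 1 := by
      by_contra hf
      have : e * 2 ≤ e * f := Nat.mul_le_mul_left e (by omega)
      omega
    rw [a5, mul_one] at a2
    omega
  obtain ⟨W0⟩ := exists_pl E hq
  refine ⟨(h4 W0).2.2, fun W => ⟨(h4 W).1, fun g x => ?_⟩⟩
  have h5 : W.1.asIdeal.inertia G = ⊤ :=
    Subgroup.eq_top_of_card_eq _ ((card_inertia k G W.1).trans (h4 W).2.1)
  have h6 : g ∈ W.1.asIdeal.inertia G := h5 ▸ Subgroup.mem_top g
  exact h6 x

end Gal

theorem exists_int {F : Type} [Field F] [NumberField F] {q : ℕ} (hq : q.Prime) (w : Pl F q)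
    (h : Ideal.absNorm w.1.asIdeal = q) (x : 𝓞 F) : ∃ n : ℤ, x - n ∈ w.1.asIdeal := by
  have := span_max hq
  have := lies hq w.1 w.2
  have := w.1.isPrime
  have h1 : w.1.asIdeal.inertiaDeg ℤ = 1 :=
    Nat.Prime.eq_one_of_pow (x := q) (by rwa [Ideal.pow_inertiaDeg q w.1.asIdeal, h])
  rw [Ideal.inertiaDeg_eq_of_isMaximal (Ideal.span {(q : ℤ)}) w.1.asIdeal] at h1
  obtain ⟨y, hy⟩ := (Algebra.finrank_eq_one_iff_bijective_algebraMap.1 h1).2
    (Ideal.Quotient.mk _ x)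
  obtain ⟨y, rfl⟩ := Ideal.Quotient.mk_surjective y
  exact ⟨y, Ideal.Quotient.eq.1 hy.symm⟩

theorem free (F G : Type) [Field F] [NumberField F] [Group G] [MulSemiringAction G F] (q : ℕ)
    (hq : q.Prime) (hS : Spl F q) (g : G) (w : Pl F q) (hw : g • w = w) (x : F) : g • x = x := by
  let K := FixedPoints.subfield (F ≃ₐ[ℚ] F) F
  have := w.1.isPrime
  have h1 : Nat.card (w.1.asIdeal.inertia (F ≃ₐ[ℚ] F)) = 1 := by
    rw [card_inertia K, ← Nat.dvd_one, ← (unq_iff hq).1 hS.1 w]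
    exact Ideal.ramificationIdx_above_dvd (und K w.1).asIdeal w.1.asIdeal
  have h2 : MulSemiringAction.toAlgEquiv ℚ F g ∈ w.1.asIdeal.inertia (F ≃ₐ[ℚ] F) := fun y => by
    obtain ⟨n, hn⟩ := exists_int hq w (hS.2 w) y
    have e : MulSemiringAction.toAlgEquiv ℚ F g • y = g • y := rfl
    have e2 : g • (n : 𝓞 F) = n := map_intCast (MulSemiringAction.toRingHom G _ g) n
    have h3 : g • (y - n) ∈ (g • w.1).asIdeal := by rwa [mem_smul_iff, inv_smul_smul]
    rw [show g • w.1 = w.1 from congrArg Subtype.val hw, smul_sub, e2] at h3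
    have h4 := sub_mem h3 hn
    rw [sub_sub_sub_cancel_right] at h4
    exact e ▸ h4
  rw [Subgroup.eq_bot_of_card_eq _ h1, Subgroup.mem_bot] at h2
  exact AlgEquiv.congr_fun h2 x

section Ext

variable (k E : Type) [Field k] [NumberField k] [Field E] [NumberField E] [Algebra k E]

theorem unq (q : ℕ) (α : 𝓞 E) (g : (𝓞 k)[X]) (hq : q.Prime) (hm : g.Monic) (hα : aeval α g = 0)
    (hd : g.natDegree = Module.finrank k E)
    (hi : ∀ w : Pl k q, Irreducible (g.map (Ideal.Quotient.mk w.1.asIdeal))) (hU : Unq k q) :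
    Unq E q := by
  refine (unq_iff hq).2 fun W => ?_
  have := W.1.isPrime
  have := (und k W.1).isPrime
  have h0 : Irreducible (g.map (Ideal.Quotient.mk (und k W.1).asIdeal)) := hi (W.und k)
  have h1 := deg_dvd h0 (hm.map _) (β := Ideal.Quotient.mk W.1.asIdeal α)
    (by rw [aeval_mk, hα, map_zero])
  rw [hm.natDegree_map, hd, ← Ideal.inertiaDeg_eq_of_isMaximal] at h1
  have h2 := ef_le (und k W.1).asIdeal W.1.asIdeal
  rw [← IsFractionRing.finrank_eq (𝓞 k) k (𝓞 E) E] at h2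
  have a3 := W.1.asIdeal.inertiaDeg_pos (𝓞 k)
  have a4 := W.1.asIdeal.ramificationIdx_pos (𝓞 k)
  have h3 := Nat.le_of_dvd a3 h1
  rw [Ideal.ramificationIdx_tower (und k W.1).asIdeal,
    show (und k W.1).asIdeal.ramificationIdx ℤ = 1 from (unq_iff hq).1 hU (W.und k), one_mul]
  generalize W.1.asIdeal.ramificationIdx (𝓞 k) = e at *
  generalize W.1.asIdeal.inertiaDeg (𝓞 k) = f at *
  by_contra he
  have : 2 * f ≤ e * f := Nat.mul_le_mul_right f (by omega)
  omega

theorem pow_dvd_aux {p j d f o : ℕ} (hp : p.Prime) (h0 : 0 < f) (hf : f ≤ d)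
    (h : p ^ (j + d) ∣ f * o) : p ^ j ∣ o := by
  obtain ⟨c, u, hu, rfl⟩ := Nat.exists_eq_pow_mul_and_not_dvd h0.ne' p hp.ne_one
  have hu0 : 0 < u := Nat.pos_of_ne_zero fun e => hu (e ▸ dvd_zero p)
  have h1 : c ≤ d := (Nat.lt_pow_self hp.one_lt).le.trans
    ((Nat.le_mul_of_pos_right _ hu0).trans hf)
  have h2 : p ^ c * p ^ j ∣ p ^ c * (u * o) := by
    rw [← pow_add, ← mul_assoc]
    exact (pow_dvd_pow p (by omega)).trans h
  exact (((Nat.Prime.coprime_iff_not_dvd hp).2 hu).pow_left j).dvd_of_dvd_mul_left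
    (Nat.dvd_of_mul_dvd_mul_left (pow_pos hp.pos c) h2)

theorem nrm (p q a j : ℕ) (W : Sp E) (hp : p.Prime) (ha : a.Prime) (hW : (a : 𝓞 E) ∈ W.asIdeal)
    (hc : (W.asIdeal.inertiaDeg (𝓞 k)).Coprime p)
    (hj : p ^ (j + Module.finrank ℚ k) ∣ orderOf (a : ZMod q)) :
    p ^ j ∣ orderOf (Ideal.absNorm W.asIdeal : ZMod q) := by
  have := W.isPrime
  have := (und k W).isPrime
  have := span_max ha
  have := lies ha W hW
  have := lies ha (und k W) (Pl.und k (⟨W, hW⟩ : Pl E a)).2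
  have h1 := ef_le (Ideal.span {(a : ℤ)}) (und k W).asIdeal
  rw [RingOfIntegers.rank] at h1
  have h2 := (Nat.le_mul_of_pos_left _ ((und k W).asIdeal.ramificationIdx_pos ℤ)).trans h1
  refine pow_dvd_aux hp ((und k W).asIdeal.inertiaDeg_pos ℤ) h2 ?_
  refine (hc.symm.pow_left _).dvd_of_dvd_mul_left (hj.trans (orderOf_dvd_of_pow_eq_one ?_))
  rw [← mul_assoc, mul_comm (W.asIdeal.inertiaDeg (𝓞 k)), ← Ideal.inertiaDeg_tower, pow_mul,
    ← Nat.cast_pow, Ideal.pow_inertiaDeg a W.asIdeal, pow_orderOf_eq_one]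

theorem one (q : ℕ) (W : Sp E) (hq : q.Prime) (h : Ideal.absNorm W.asIdeal = q) :
    W.asIdeal.inertiaDeg (𝓞 k) = 1 := by
  have := W.isPrime
  refine Nat.Prime.eq_one_of_pow (x := Ideal.absNorm (und k W).asIdeal) ?_
  rwa [Ideal.absNorm_pow_inertiaDeg, h]

end Ext

theorem exists_prime {F : Type} [Field F] [NumberField F] (w : Sp F) (l : ℕ) :
    l ≠ 0 → (l : 𝓞 F) ∈ w.asIdeal → ∃ a : ℕ, a.Prime ∧ a ∣ l ∧ (a : 𝓞 F) ∈ w.asIdeal := by
  induction l using induction_on_primes with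
  | zero => exact fun h => absurd rfl h
  | one => exact fun _ h => absurd ((Ideal.eq_top_iff_one _).2 (by simpa using h)) w.isPrime.ne_top
  | prime_mul p a hp ih =>
    intro h0 h
    rw [Nat.cast_mul] at h
    rcases w.isPrime.mem_or_mem h with h | h
    · exact ⟨p, hp, dvd_mul_right _ _, h⟩
    · obtain ⟨b, h1, h2, h3⟩ := ih (right_ne_zero_of_mul h0) h
      exact ⟨b, h1, h2.mul_left _, h3⟩

theorem rowMS : RowMS where
  fexp k _ G _ _ _ _ _ _ _ _ := fexp k G
  trans k _ G _ _ _ _ _ _ _ _ := trans k G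
  free := free
  ramq k _ G _ _ _ _ _ _ _ _ := ramq k G
  unq := unq
  nrm k E _ _ _ _ _ p q a j W hp _ ha hW hc hj _ := nrm k E p q a j W hp ha hW hc hj
  one := one
  tower k F _ _ _ _ _ _ _ _ _ _ _ W :=
    ⟨und_und k F W, Ideal.inertiaDeg_tower (und F W).asIdeal W.asIdeal⟩
  prm _ _ _ w := ⟨Ideal.absNorm_mem _, fun h => w.ne_bot (Ideal.absNorm_eq_zero_iff.1 h),
    exists_prime w⟩

end Pool.Agent.MP_db5b97_nt.H17
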